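import Mathlib

/-! Two-sided sequences of sublinear growth which satisfy a linear recurrence are trigonometric
polynomials, hence almost periodic. -/

set_option autoImplicit false

open Polynomial Filter

namespace Pool.Agent.H8.LC

/-- shift of two-sided sequences -/
noncomputable def S : Module.End ℂ (ℤ → ℂ) := LinearMap.funLeft ℂ ℂ (fun j : ℤ => j + 1)

lemma S_apply (d : ℤ → ℂ) (j : ℤ) : S d j = d (j + 1) := rfl

/-- sublinear growth -/
def SubL (d : ℤ → ℂ) : Prop := ∀ ε : ℝ, 0 < ε → ∃ A : ℝ, ∀ j : ℤ, ‖d j‖ ≤ A + ε * |(j : ℝ)|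

/-- exponential sequences -/
noncomputable def ee (μ : ℂ) : ℤ → ℂ := fun j => μ ^ j

/-- trigonometric polynomials -/
noncomputable def TP : Submodule ℂ (ℤ → ℂ) :=
  Submodule.span ℂ {f | ∃ μ : ℂ, ‖μ‖ = 1 ∧ f = ee μ}

lemma ee_mem {μ : ℂ} (h : ‖μ‖ = 1) : ee μ ∈ TP := Submodule.subset_span ⟨μ, h, rfl⟩

lemma subL_sub {d f : ℤ → ℂ} (hd : SubL d) (hf : SubL f) : SubL (d - f) := by
  intro ε hε
  obtain ⟨A, hA⟩ := hd (ε / 2) (by positivity)
  obtain ⟨B, hB⟩ := hf (ε / 2) (by positivity)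
  refine ⟨A + B, fun j => ?_⟩
  calc ‖(d - f) j‖ = ‖d j - f j‖ := rfl
    _ ≤ ‖d j‖ + ‖f j‖ := norm_sub_le _ _
    _ ≤ _ := by linarith [hA j, hB j]

lemma subL_bdd {d : ℤ → ℂ} {A : ℝ} (h : ∀ j, ‖d j‖ ≤ A) : SubL d := by
  intro ε hε
  refine ⟨A, fun j => ?_⟩
  have := h j
  have : 0 ≤ ε * |(j : ℝ)| := by positivity
  linarith

lemma TP_bdd {d : ℤ → ℂ} (h : d ∈ TP) : ∃ A : ℝ, ∀ j, ‖d j‖ ≤ A := by
  unfold TP at h
  induction h using Submodule.span_induction with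
  | mem x hx =>
    obtain ⟨μ, hμ, rfl⟩ := hx
    refine ⟨1, fun j => ?_⟩
    unfold ee
    rw [norm_zpow, hμ, one_zpow]
  | zero => exact ⟨0, fun j => by simp⟩
  | add x y _ _ hx hy =>
    obtain ⟨A, hA⟩ := hx
    obtain ⟨B, hB⟩ := hy
    refine ⟨A + B, fun j => ?_⟩
    calc ‖(x + y) j‖ = ‖x j + y j‖ := rfl
      _ ≤ ‖x j‖ + ‖y j‖ := norm_add_le _ _
      _ ≤ _ := by linarith [hA j, hB j]
  | smul a x _ hx =>
    obtain ⟨A, hA⟩ := hx
    refine ⟨‖a‖ * A, fun j => ?_⟩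
    calc ‖(a • x) j‖ = ‖a‖ * ‖x j‖ := by simp
      _ ≤ _ := by gcongr; exact hA j

lemma TP_subL {d : ℤ → ℂ} (h : d ∈ TP) : SubL d := by
  obtain ⟨A, hA⟩ := TP_bdd h
  exact subL_bdd hA

/-- span of the exponentials other than `l` -/
noncomputable def TQ (l : ℂ) : Submodule ℂ (ℤ → ℂ) :=
  Submodule.span ℂ {f | ∃ μ : ℂ, ‖μ‖ = 1 ∧ μ ≠ l ∧ f = ee μ}

lemma decomp (l : ℂ) {f : ℤ → ℂ} (h : f ∈ TP) :
    ∃ f1 ∈ TQ l, ∃ c : ℂ, (c ≠ 0 → ‖l‖ = 1) ∧ f = f1 + c • ee l := by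
  unfold TP at h
  induction h using Submodule.span_induction with
  | mem x hx =>
    obtain ⟨μ, hμ, rfl⟩ := hx
    by_cases hl : μ = l
    · subst hl
      exact ⟨0, Submodule.zero_mem _, 1, fun _ => hμ, by simp⟩
    · exact ⟨ee μ, Submodule.subset_span ⟨μ, hμ, hl, rfl⟩, 0, fun h => absurd rfl h, by simp⟩
  | zero => exact ⟨0, Submodule.zero_mem _, 0, fun h => absurd rfl h, by simp⟩
  | add x y _ _ hx hy =>
    obtain ⟨f1, hf1, c1, h1, rfl⟩ := hx
    obtain ⟨f2, hf2, c2, h2, rfl⟩ := hy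
    refine ⟨f1 + f2, Submodule.add_mem _ hf1 hf2, c1 + c2, fun h => ?_, ?_⟩
    · by_cases hc : c1 = 0
      · exact h2 (fun h3 => h (by rw [hc, h3, add_zero]))
      · exact h1 hc
    · rw [add_smul]; abel
  | smul a x _ hx =>
    obtain ⟨f1, hf1, c1, h1, rfl⟩ := hx
    refine ⟨a • f1, Submodule.smul_mem _ _ hf1, a * c1, fun h => ?_, ?_⟩
    · exact h1 (right_ne_zero_of_mul h)
    · rw [smul_add, smul_smul]

lemma solve (l : ℂ) {f : ℤ → ℂ} (h : f ∈ TQ l) : ∃ g ∈ TP, S g - l • g = f := by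
  unfold TQ at h
  induction h using Submodule.span_induction with
  | mem x hx =>
    obtain ⟨μ, hμ, hl, rfl⟩ := hx
    have hμ0 : μ ≠ 0 := by rintro rfl; simp at hμ
    have hne : μ - l ≠ 0 := sub_ne_zero.2 hl
    refine ⟨(μ - l)⁻¹ • ee μ, Submodule.smul_mem _ _ (ee_mem hμ), ?_⟩
    funext j
    simp only [map_smul, Pi.sub_apply, Pi.smul_apply, S_apply, smul_eq_mul, ee]
    rw [zpow_add_one₀ hμ0]
    field_simp
  | zero => exact ⟨0, Submodule.zero_mem _, by simp⟩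
  | add x y _ _ hx hy =>
    obtain ⟨g1, hg1, h1⟩ := hx
    obtain ⟨g2, hg2, h2⟩ := hy
    refine ⟨g1 + g2, Submodule.add_mem _ hg1 hg2, ?_⟩
    rw [map_add, smul_add, ← h1, ← h2]; abel
  | smul a x _ hx =>
    obtain ⟨g1, hg1, h1⟩ := hx
    refine ⟨a • g1, Submodule.smul_mem _ _ hg1, ?_⟩
    rw [map_smul, ← h1, smul_sub, smul_comm l a]

/-- first order recurrence in both directions -/
lemma first_order {l : ℂ} (hl : l ≠ 0) {d : ℤ → ℂ} (h : ∀ j, d (j + 1) = l * d j) (j : ℤ) :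
    d j = l ^ j * d 0 := by
  induction j using Int.induction_on with
  | zero => simp
  | succ i ih =>
    rw [h, ih, zpow_add_one₀ hl]; ring
  | pred i ih =>
    have h1 := h (-(i : ℤ) - 1)
    rw [sub_add_cancel, ih] at h1
    have h2 : l ^ (-(i : ℤ)) = l * l ^ (-(i : ℤ) - 1) := by
      rw [← zpow_one_add₀ hl]; congr 1; ring
    rw [h2, mul_assoc] at h1
    exact (mul_left_cancel₀ hl h1).symm

lemma exp_beats {r A a : ℝ} (hr : 1 < r) (h : ∀ n : ℕ, r ^ n * a ≤ A + n) : a ≤ 0 := by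
  by_contra hcon
  push Not at hcon
  have h1 : Tendsto (fun n : ℕ => ((n : ℝ) + 1) / r ^ n) atTop (nhds 0) := by
    have h2 := tendsto_pow_const_div_const_pow_of_one_lt 1 hr
    have h3 := tendsto_inv_atTop_zero.comp (tendsto_pow_atTop_atTop_of_one_lt hr)
    have h4 := h2.add h3
    rw [add_zero] at h4
    refine h4.congr fun n => ?_
    simp only [Function.comp_apply, pow_one]
    ring
  set c := |A| + 1 with hc
  have hc0 : 0 < c := by positivity
  have h5 := (h1.eventually_lt_const (show (0 : ℝ) < a / c by positivity))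
  obtain ⟨n, hn⟩ := h5.exists
  have hrn : 0 < r ^ n := by positivity
  rw [div_lt_div_iff₀ hrn hc0] at hn
  have h6 := h n
  have h7 := le_abs_self A
  have hn0 : (0 : ℝ) ≤ n := Nat.cast_nonneg n
  have h8 : A + n ≤ (n + 1) * c := by
    rw [hc]
    have := abs_nonneg A
    nlinarith
  linarith

lemma step {l : ℂ} {d : ℤ → ℂ} (hd : SubL d) (hf : S d - l • d ∈ TP) : d ∈ TP := by
  obtain ⟨f1, hf1, c, hc, he⟩ := decomp l hf
  obtain ⟨g, hg, hgf⟩ := solve l hf1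
  set d' := d - g with hd'
  have hs : SubL d' := subL_sub hd (TP_subL hg)
  have hrec : ∀ j, d' (j + 1) = l * d' j + c * l ^ j := by
    intro j
    have h1 := congrFun he j
    have h2 := congrFun hgf j
    simp only [Pi.sub_apply, Pi.smul_apply, Pi.add_apply, S_apply, smul_eq_mul, ee] at h1 h2
    simp only [hd', Pi.sub_apply]
    rw [← h2] at h1
    linear_combination h1
  suffices h : d' ∈ TP by
    have : d = d' + g := by rw [hd']; abel
    rw [this]
    exact Submodule.add_mem _ h hg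
  by_cases hl0 : l = 0
  · have hc0 : c = 0 := by
      by_contra h
      have := hc h
      rw [hl0] at this; simp at this
    have : d' = 0 := by
      funext j
      have h1 := hrec (j - 1)
      rw [sub_add_cancel, hl0, hc0] at h1
      simpa using h1
    rw [this]; exact Submodule.zero_mem _
  by_cases hl1 : ‖l‖ = 1
  · -- unimodular
    have hform : ∀ n : ℕ, d' n = l ^ n * d' 0 + n * c * l ^ n / l := by
      intro n
      induction n with
      | zero => simp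
      | succ n ih =>
        have h1 := hrec n
        push_cast at h1 ⊢
        rw [h1, ih, zpow_natCast, pow_succ]
        field_simp
        ring
    have hc0 : c = 0 := by
      by_contra hne
      have hcn : 0 < ‖c‖ := norm_pos_iff.2 hne
      obtain ⟨A, hA⟩ := hs (‖c‖ / 2) (by positivity)
      obtain ⟨n, hn⟩ := exists_nat_gt ((A + ‖d' 0‖) / (‖c‖ / 2))
      rw [div_lt_iff₀ (by positivity)] at hn
      have h1 := hA n
      rw [hform n] at h1
      have h2 : ‖(n : ℂ) * c * l ^ n / l‖ = n * ‖c‖ := by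
        rw [norm_div, norm_mul, norm_mul, norm_pow, hl1, one_pow, Complex.norm_natCast]
        ring
      have h3 : ‖l ^ n * d' 0‖ = ‖d' 0‖ := by rw [norm_mul, norm_pow, hl1, one_pow, one_mul]
      have h4 : n * ‖c‖ - ‖d' 0‖ ≤ ‖l ^ n * d' 0 + n * c * l ^ n / l‖ := by
        rw [← h2, ← h3]
        have := norm_sub_norm_le ((n : ℂ) * c * l ^ n / l) (-(l ^ n * d' 0))
        rw [norm_neg, sub_neg_eq_add, add_comm] at this
        exact this
      have h5 : |((n : ℤ) : ℝ)| = n := by simp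
      rw [h5] at h1
      nlinarith
    have h1 : ∀ j, d' (j + 1) = l * d' j := fun j => by rw [hrec j, hc0]; ring
    have h2 : d' = d' 0 • ee l := by
      funext j
      rw [first_order hl0 h1 j]
      simp only [Pi.smul_apply, smul_eq_mul, ee]
      ring
    rw [h2]
    exact Submodule.smul_mem _ _ (ee_mem hl1)
  · have hc0 : c = 0 := by
      by_contra h
      exact hl1 (hc h)
    have h1 : ∀ j, d' (j + 1) = l * d' j := fun j => by rw [hrec j, hc0]; ring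
    have h2 := first_order hl0 h1
    obtain ⟨A, hA⟩ := hs 1 one_pos
    have hn0 : 0 < ‖l‖ := norm_pos_iff.2 hl0
    have h3 : ‖d' 0‖ ≤ 0 := by
      rcases lt_or_gt_of_ne hl1 with h | h
      · have hr : 1 < ‖l‖⁻¹ := (one_lt_inv₀ hn0).2 h
        refine exp_beats hr (A := A) fun n => ?_
        have h4 := hA (-(n : ℤ))
        rw [h2, norm_mul, norm_zpow, zpow_neg, zpow_natCast] at h4
        rw [inv_pow]
        simpa using h4
      · refine exp_beats h (A := A) fun n => ?_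
        have h4 := hA (n : ℤ)
        rw [h2, norm_mul, norm_zpow, zpow_natCast] at h4
        simpa using h4
    have h4 : d' 0 = 0 := by simpa using h3
    have : d' = 0 := by
      funext j
      rw [h2, h4]; simp
    rw [this]; exact Submodule.zero_mem _

lemma subL_step {l : ℂ} {d : ℤ → ℂ} (hd : SubL d) : SubL (S d - l • d) := by
  intro ε hε
  obtain ⟨A, hA⟩ := hd (ε / (1 + ‖l‖)) (by positivity)
  refine ⟨A + ε / (1 + ‖l‖) + ‖l‖ * A, fun j => ?_⟩
  have h1 := hA (j + 1)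
  have h2 := hA j
  have h3 : |((j + 1 : ℤ) : ℝ)| ≤ |(j : ℝ)| + 1 := by
    push_cast
    calc |(j : ℝ) + 1| ≤ |(j : ℝ)| + |(1 : ℝ)| := abs_add_le _ _
      _ = _ := by simp
  have hq : 0 < ε / (1 + ‖l‖) := by positivity
  have hqe : ε / (1 + ‖l‖) * (1 + ‖l‖) = ε := by field_simp
  have hl0 := norm_nonneg l
  calc ‖(S d - l • d) j‖ = ‖d (j + 1) - l * d j‖ := rfl
    _ ≤ ‖d (j + 1)‖ + ‖l‖ * ‖d j‖ := by
        rw [← norm_mul]; exact norm_sub_le _ _
    _ ≤ (A + ε / (1 + ‖l‖) * (|(j : ℝ)| + 1)) + ‖l‖ * (A + ε / (1 + ‖l‖) * |(j : ℝ)|) := by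
        gcongr
        exact h1.trans (by gcongr)
    _ = A + ε / (1 + ‖l‖) + ‖l‖ * A + (ε / (1 + ‖l‖) * (1 + ‖l‖)) * |(j : ℝ)| := by ring
    _ = _ := by rw [hqe]

theorem trig : ∀ (n : ℕ) (P : ℂ[X]), P.natDegree = n → P ≠ 0 → ∀ d : ℤ → ℂ, SubL d →
    aeval S P d = 0 → d ∈ TP := by
  intro n
  induction n with
  | zero =>
    intro P hP hP0 d _ h
    rw [eq_C_of_natDegree_eq_zero hP] at h hP0
    have hc : P.coeff 0 ≠ 0 := by
      intro h0; rw [h0] at hP0; simp at hP0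
    rw [aeval_C] at h
    have : d = 0 := by
      funext j
      have h1 := congrFun h j
      simp only [Module.algebraMap_end_apply, Pi.smul_apply, smul_eq_mul, Pi.zero_apply] at h1
      exact (mul_eq_zero.1 h1).resolve_left hc
    rw [this]; exact Submodule.zero_mem _
  | succ n ih =>
    intro P hP hP0 d hd h
    have hdeg : P.degree ≠ 0 := by
      intro h0
      rw [degree_eq_natDegree hP0, hP] at h0
      exact absurd h0 (by exact_mod_cast Nat.succ_ne_zero n)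
    obtain ⟨l, hl⟩ := IsAlgClosed.exists_root P hdeg
    obtain ⟨Q, hQ⟩ := dvd_iff_isRoot.2 hl
    have hQ0 : Q ≠ 0 := by rintro rfl; rw [mul_zero] at hQ; exact hP0 hQ
    have hQd : Q.natDegree = n := by
      have h1 := congrArg natDegree hQ
      rw [natDegree_mul (X_sub_C_ne_zero l) hQ0, natDegree_X_sub_C] at h1
      omega
    have h2 : aeval S (X - C l) d = S d - l • d := by
      simp [Module.algebraMap_end_apply]
    rw [hQ, mul_comm, map_mul, Module.End.mul_apply, h2] at h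
    exact step hd (ih Q hQd hQ0 _ (subL_step hd) h)

/-! ### almost periods -/

lemma returns (F : Finset ℂ) (hF : ∀ μ ∈ F, ‖μ‖ = 1) (ε : ℝ) (hε : 0 < ε) :
    ∃ m : ℕ, 1 ≤ m ∧ ∑ μ ∈ F, ‖μ ^ m - 1‖ ≤ ε := by
  classical
  set u : ℕ → (F → ℂ) := fun n μ => (μ : ℂ) ^ n with hu
  have hb : ∀ n, u n ∈ Metric.closedBall (0 : F → ℂ) 1 := by
    intro n
    rw [mem_closedBall_zero_iff, pi_norm_le_iff_of_nonneg zero_le_one]
    intro μ
    simp only [hu]
    rw [norm_pow, hF μ μ.2, one_pow]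
  obtain ⟨a, _, φ, hφ, hlim⟩ := tendsto_subseq_of_bounded Metric.isBounded_closedBall hb
  have hcau := hlim.cauchySeq
  rw [Metric.cauchySeq_iff'] at hcau
  obtain ⟨N, hN⟩ := hcau (ε / (F.card + 1)) (by positivity)
  have h1 := hN (N + 1) (by omega)
  have hlt : φ N < φ (N + 1) := hφ (by omega)
  refine ⟨φ (N + 1) - φ N, by omega, ?_⟩
  have h2 : ∀ μ ∈ F, ‖μ ^ (φ (N + 1) - φ N) - 1‖ ≤ ε / (F.card + 1) := by
    intro μ hμ
    have h3 : ‖u (φ (N + 1)) ⟨μ, hμ⟩ - u (φ N) ⟨μ, hμ⟩‖ ≤ ε / (F.card + 1) := by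
      rw [dist_eq_norm] at h1
      refine (norm_le_pi_norm (u (φ (N + 1)) - u (φ N)) ⟨μ, hμ⟩).trans h1.le
    have h4 : u (φ (N + 1)) ⟨μ, hμ⟩ - u (φ N) ⟨μ, hμ⟩ =
        μ ^ φ N * (μ ^ (φ (N + 1) - φ N) - 1) := by
      simp only [hu]
      rw [mul_sub, mul_one, ← pow_add]
      congr 2
      omega
    rw [h4, norm_mul, norm_pow, hF μ hμ, one_pow, one_mul] at h3
    exact h3
  calc ∑ μ ∈ F, ‖μ ^ (φ (N + 1) - φ N) - 1‖ ≤ ∑ μ ∈ F, ε / (F.card + 1) := Finset.sum_le_sum h2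
    _ = F.card * (ε / (F.card + 1)) := by rw [Finset.sum_const, nsmul_eq_mul]
    _ ≤ ε := by
        rw [← mul_div_assoc, div_le_iff₀ (by positivity)]
        nlinarith

lemma TP_mod {d : ℤ → ℂ} (h : d ∈ TP) : ∃ (F : Finset ℂ) (A : ℝ), (∀ μ ∈ F, ‖μ‖ = 1) ∧ 0 ≤ A ∧
    ∀ (m : ℕ) (j : ℤ), ‖d (j + m) - d j‖ ≤ A * ∑ μ ∈ F, ‖μ ^ m - 1‖ := by
  classical
  unfold TP at h
  induction h using Submodule.span_induction with
  | mem x hx =>
    obtain ⟨μ, hμ, rfl⟩ := hx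
    refine ⟨{μ}, 1, by simpa using hμ, zero_le_one, fun m j => ?_⟩
    have hμ0 : μ ≠ 0 := by rintro rfl; simp at hμ
    simp only [ee]
    rw [zpow_add₀ hμ0, zpow_natCast, Finset.sum_singleton, one_mul]
    have : μ ^ j * μ ^ m - μ ^ j = μ ^ j * (μ ^ m - 1) := by ring
    rw [this, norm_mul, norm_zpow, hμ, one_zpow, one_mul]
  | zero => exact ⟨∅, 0, by simp, le_rfl, fun m j => by simp⟩
  | add x y _ _ hx hy =>
    obtain ⟨F1, A1, a1, a2, a3⟩ := hx
    obtain ⟨F2, A2, b1, b2, b3⟩ := hy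
    refine ⟨F1 ∪ F2, A1 + A2, ?_, by positivity, fun m j => ?_⟩
    · intro μ hμ
      rcases Finset.mem_union.1 hμ with h | h
      · exact a1 μ h
      · exact b1 μ h
    · have s1 : ∑ μ ∈ F1, ‖μ ^ m - 1‖ ≤ ∑ μ ∈ F1 ∪ F2, ‖μ ^ m - 1‖ :=
        Finset.sum_le_sum_of_subset_of_nonneg Finset.subset_union_left fun _ _ _ => norm_nonneg _
      have s2 : ∑ μ ∈ F2, ‖μ ^ m - 1‖ ≤ ∑ μ ∈ F1 ∪ F2, ‖μ ^ m - 1‖ :=
        Finset.sum_le_sum_of_subset_of_nonneg Finset.subset_union_right fun _ _ _ => norm_nonneg _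
      calc ‖(x + y) (j + m) - (x + y) j‖ = ‖(x (j + m) - x j) + (y (j + m) - y j)‖ := by
            congr 1
            simp only [Pi.add_apply]; ring
        _ ≤ ‖x (j + m) - x j‖ + ‖y (j + m) - y j‖ := norm_add_le _ _
        _ ≤ A1 * ∑ μ ∈ F1 ∪ F2, ‖μ ^ m - 1‖ + A2 * ∑ μ ∈ F1 ∪ F2, ‖μ ^ m - 1‖ := by
            refine add_le_add ((a3 m j).trans ?_) ((b3 m j).trans ?_)
            · gcongr
            · gcongr
        _ = _ := by ring
  | smul a x _ hx =>
    obtain ⟨F1, A1, a1, a2, a3⟩ := hx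
    refine ⟨F1, ‖a‖ * A1, a1, by positivity, fun m j => ?_⟩
    calc ‖(a • x) (j + m) - (a • x) j‖ = ‖a‖ * ‖x (j + m) - x j‖ := by
          simp only [Pi.smul_apply, smul_eq_mul]
          rw [← mul_sub, norm_mul]
      _ ≤ ‖a‖ * (A1 * ∑ μ ∈ F1, ‖μ ^ m - 1‖) := by gcongr; exact a3 m j
      _ = _ := by ring

lemma TP_ap {d : ℤ → ℂ} (h : d ∈ TP) (ε : ℝ) (hε : 0 < ε) :
    ∃ m : ℕ, 1 ≤ m ∧ ∀ j : ℤ, ‖d (j + m) - d j‖ ≤ ε := by
  obtain ⟨F, A, h1, h2, h3⟩ := TP_mod h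
  obtain ⟨m, hm, h4⟩ := returns F h1 (ε / (A + 1)) (by positivity)
  refine ⟨m, hm, fun j => (h3 m j).trans ?_⟩
  calc A * ∑ μ ∈ F, ‖μ ^ m - 1‖ ≤ A * (ε / (A + 1)) := by gcongr
    _ ≤ ε := by
        rw [← mul_div_assoc, div_le_iff₀ (by positivity)]
        nlinarith

/-! ### real recurrences -/

lemma S_pow (i : ℕ) (d : ℤ → ℂ) (j : ℤ) : (S ^ i) d j = d (j + i) := by
  induction i generalizing d j with
  | zero => simp
  | succ i ih =>
    rw [pow_succ, Module.End.mul_apply, ih, S_apply]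
    congr 1
    push_cast; ring

/-- second difference of a sequence -/
def dd (d : ℤ → ℝ) (j : ℤ) : ℝ := d (j + 2) - 2 * d (j + 1) + d j

/-- a sequence of sublinear growth whose second differences satisfy a linear recurrence has
arbitrarily good almost periods -/
theorem real_ap {k : ℕ} (b : Fin (k + 1) → ℝ) (hb : b ≠ 0) (d : ℤ → ℝ)
    (hd : ∀ j : ℤ, ∑ i, b i * dd d (j + (i : ℕ)) = 0)
    (hs : ∀ ε : ℝ, 0 < ε → ∃ A : ℝ, ∀ j : ℤ, |d j| ≤ A + ε * |(j : ℝ)|)
    (ε : ℝ) (hε : 0 < ε) : ∃ m : ℕ, 1 ≤ m ∧ ∀ j : ℤ, |d (j + m) - d j| ≤ ε := by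
  classical
  set D : ℤ → ℂ := fun j => (d j : ℂ) with hD
  set B : ℂ[X] := ∑ i : Fin (k + 1), C ((b i : ℝ) : ℂ) * X ^ (i : ℕ) with hB
  have hB0 : B ≠ 0 := by
    intro h
    apply hb
    funext i
    have h1 := congrArg (fun P : ℂ[X] => P.coeff (i : ℕ)) h
    simp only [hB, finsetSum_coeff, coeff_C_mul, coeff_X_pow, coeff_zero, mul_ite, mul_one,
      mul_zero] at h1
    have h2 : ∑ x : Fin (k + 1), (if (i : ℕ) = (x : ℕ) then ((b x : ℝ) : ℂ) else 0) = (b i : ℂ) := by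
      rw [Finset.sum_eq_single i]
      · simp
      · intro x _ hx
        rw [if_neg]
        intro h; exact hx (Fin.ext h.symm)
      · intro h; exact absurd (Finset.mem_univ i) h
    rw [h2] at h1
    simpa using h1
  have hP0 : B * (X - C (1 : ℂ)) ^ 2 ≠ 0 := mul_ne_zero hB0 (pow_ne_zero _ (X_sub_C_ne_zero 1))
  have hDs : SubL D := by
    intro ε hε
    obtain ⟨A, hA⟩ := hs ε hε
    refine ⟨A, fun j => ?_⟩
    simp only [hD]
    rw [Complex.norm_real]
    exact hA j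
  have hX : ∀ f : ℤ → ℂ, aeval S (X - C (1 : ℂ) : ℂ[X]) f = S f - f := by
    intro f
    simp [Module.algebraMap_end_apply]
  have hz : aeval S (B * (X - C (1 : ℂ)) ^ 2) D = 0 := by
    rw [map_mul, Module.End.mul_apply, pow_two, map_mul, Module.End.mul_apply, hX, hX]
    have hBf : ∀ (f : ℤ → ℂ) (j : ℤ), (aeval S B) f j =
        ∑ i : Fin (k + 1), ((b i : ℝ) : ℂ) * f (j + (i : ℕ)) := by
      intro f j
      rw [hB, map_sum, LinearMap.sum_apply, Finset.sum_apply]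
      refine Finset.sum_congr rfl fun i _ => ?_
      rw [map_mul, aeval_C, aeval_X_pow, Module.End.mul_apply, Module.algebraMap_end_apply,
        Pi.smul_apply, S_pow, smul_eq_mul]
    funext j
    rw [hBf, Pi.zero_apply]
    simp only [Pi.sub_apply, S_apply]
    have h1 := congrArg (fun x : ℝ => (x : ℂ)) (hd j)
    push_cast at h1
    rw [← h1]
    refine Finset.sum_congr rfl fun i _ => ?_
    unfold dd
    simp only [hD]
    push_cast
    have e1 : j + (i : ℕ) + 1 + 1 = j + (i : ℕ) + 2 := by ring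
    rw [e1]
    ring
  have h1 := trig _ _ rfl hP0 D hDs hz
  obtain ⟨m, hm, h2⟩ := TP_ap h1 ε hε
  refine ⟨m, hm, fun j => ?_⟩
  have h3 := h2 j
  simp only [hD] at h3
  rw [← Complex.ofReal_sub, Complex.norm_real] at h3
  exact h3

end Pool.Agent.H8.LC
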