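import Pool.Agent.H8.LC.A1

/-! Compactness: a long block of a sequence of controlled growth which nearly satisfies a linear
recurrence has a good almost period on a long block. -/

set_option autoImplicit false

open Filter Topology

namespace Pool.Agent.H8.LC

theorem compact_ap (k : ℕ) (A : ℝ) (hA : 0 ≤ A) (Mf w : ℕ → ℕ) :
    ∃ (J : ℕ) (δ : ℝ), 1 ≤ J ∧ 0 < δ ∧ ∀ d : ℤ → ℝ,
      (∀ j : ℤ, |j| ≤ J → |d j| ≤ A + |(j : ℝ)|) →
      (∀ q : ℕ, 1 ≤ q → ∀ j : ℤ, (Mf q : ℤ) ≤ |j| → |j| ≤ J → |d j| ≤ |(j : ℝ)| / q) →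
      ∀ b : Fin (k + 1) → ℝ, ∑ i, |b i| = 1 →
      (∀ j : ℤ, |j| ≤ J → |∑ i, b i * dd d (j + (i : ℕ))| ≤ δ) →
      ∃ m : ℕ, 1 ≤ m ∧ m ≤ J ∧ w m ≤ J ∧ ∀ j : ℤ, |j| ≤ w m → |d (j + m) - d j| ≤ 1 / 2 := by
  classical
  set X : Set ((Fin (k + 1) → ℝ) × (ℤ → ℝ)) :=
    {x | ∑ i, |x.1 i| = 1} ∩ {x | ∀ j : ℤ, |x.2 j| ≤ A + |(j : ℝ)|} with hX
  have hXc : IsCompact X := by
    have h1 : IsCompact ((Set.univ.pi fun _ : Fin (k + 1) => Set.Icc (-1 : ℝ) 1) ×ˢ
        (Set.univ.pi fun j : ℤ => Set.Icc (-(A + |(j : ℝ)|)) (A + |(j : ℝ)|))) :=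
      (isCompact_univ_pi fun _ => isCompact_Icc).prod (isCompact_univ_pi fun _ => isCompact_Icc)
    refine h1.of_isClosed_subset ?_ ?_
    · refine IsClosed.inter ?_ ?_
      · refine isClosed_eq ?_ continuous_const
        fun_prop
      · have e : {x : (Fin (k + 1) → ℝ) × (ℤ → ℝ) | ∀ j : ℤ, |x.2 j| ≤ A + |(j : ℝ)|} =
            ⋂ j : ℤ, {x | |x.2 j| ≤ A + |(j : ℝ)|} := by
          ext x; simp only [Set.mem_ofPred_eq, Set.mem_iInter]
        rw [e]
        refine isClosed_iInter fun j => ?_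
        refine isClosed_le ?_ continuous_const
        fun_prop
    · rintro ⟨b, d⟩ ⟨h2, h3⟩
      refine ⟨?_, ?_⟩
      · intro i _
        have h4 : |b i| ≤ 1 := by
          have h2' : ∑ i, |b i| = 1 := h2
          rw [← h2']
          exact Finset.single_le_sum (f := fun i => |b i|) (fun _ _ => abs_nonneg _)
            (Finset.mem_univ i)
        exact abs_le.1 h4
      · intro j _
        exact abs_le.1 (h3 j)
  set C : ℕ → Set ((Fin (k + 1) → ℝ) × (ℤ → ℝ)) := fun n =>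
    X ∩ ({x | ∀ q : ℕ, 1 ≤ q → q ≤ n → ∀ j : ℤ, (Mf q : ℤ) ≤ |j| → |j| ≤ n →
        |x.2 j| ≤ |(j : ℝ)| / q} ∩
      ({x | ∀ j : ℤ, |j| ≤ n → |∑ i, x.1 i * dd x.2 (j + (i : ℕ))| ≤ 1 / (n + 1)} ∩
      {x | ∀ m : ℕ, 1 ≤ m → m ≤ n → ∃ j : ℤ, |j| ≤ w m ∧ 1 / 2 ≤ |x.2 (j + m) - x.2 j|})) with hC
  have hcl : ∀ n, IsClosed (C n) := by
    intro n
    refine hXc.isClosed.inter ?_
    refine IsClosed.inter ?_ (IsClosed.inter ?_ ?_)
    · have e : {x : (Fin (k + 1) → ℝ) × (ℤ → ℝ) | ∀ q : ℕ, 1 ≤ q → q ≤ n → ∀ j : ℤ,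
          (Mf q : ℤ) ≤ |j| → |j| ≤ n → |x.2 j| ≤ |(j : ℝ)| / q} =
          ⋂ q : ℕ, ⋂ _ : 1 ≤ q, ⋂ _ : q ≤ n, ⋂ j : ℤ, ⋂ _ : (Mf q : ℤ) ≤ |j|, ⋂ _ : |j| ≤ n,
            {x | |x.2 j| ≤ |(j : ℝ)| / q} := by
        ext x; simp only [Set.mem_ofPred_eq, Set.mem_iInter]
      rw [e]
      refine isClosed_iInter fun q => isClosed_iInter fun _ => isClosed_iInter fun _ =>
        isClosed_iInter fun j => isClosed_iInter fun _ => isClosed_iInter fun _ => ?_
      refine isClosed_le ?_ continuous_const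
      fun_prop
    · have e : {x : (Fin (k + 1) → ℝ) × (ℤ → ℝ) | ∀ j : ℤ, |j| ≤ n →
          |∑ i : Fin (k + 1), x.1 i * dd x.2 (j + (i : ℕ))| ≤ 1 / (n + 1)} =
            ⋂ j : ℤ, ⋂ _ : |j| ≤ n,
            {x | |∑ i : Fin (k + 1), x.1 i * dd x.2 (j + (i : ℕ))| ≤ 1 / (n + 1)} := by
        ext x; simp only [Set.mem_ofPred_eq, Set.mem_iInter]
      rw [e]
      refine isClosed_iInter fun j => isClosed_iInter fun _ => ?_
      refine isClosed_le ?_ continuous_const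
      unfold dd
      fun_prop
    · have e : {x : (Fin (k + 1) → ℝ) × (ℤ → ℝ) | ∀ m : ℕ, 1 ≤ m → m ≤ n → ∃ j : ℤ,
          |j| ≤ w m ∧ 1 / 2 ≤ |x.2 (j + m) - x.2 j|} = ⋂ m : ℕ, ⋂ _ : 1 ≤ m, ⋂ _ : m ≤ n,
            {x | ∃ j : ℤ, |j| ≤ w m ∧ 1 / 2 ≤ |x.2 (j + m) - x.2 j|} := by
        ext x; simp only [Set.mem_ofPred_eq, Set.mem_iInter]
      rw [e]
      refine isClosed_iInter fun m => isClosed_iInter fun _ => isClosed_iInter fun _ => ?_
      have h1 : {x : (Fin (k + 1) → ℝ) × (ℤ → ℝ) | ∃ j : ℤ, |j| ≤ w m ∧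
          1 / 2 ≤ |x.2 (j + m) - x.2 j|} =
          ⋃ j ∈ Finset.Icc (-(w m : ℤ)) (w m), {x | 1 / 2 ≤ |x.2 (j + m) - x.2 j|} := by
        ext x
        simp only [Set.mem_ofPred_eq, Set.mem_iUnion, Finset.mem_Icc, exists_prop, abs_le]
      rw [h1]
      refine isClosed_biUnion_finset fun j _ => ?_
      refine isClosed_le continuous_const ?_
      fun_prop
  have hanti : ∀ n, C (n + 1) ⊆ C n := by
    rintro n x ⟨h1, h2, h3, h4⟩
    refine ⟨h1, fun q hq1 hq2 j hj1 hj2 => ?_, fun j hj => ?_, fun m hm1 hm2 => ?_⟩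
    · exact h2 q hq1 (by omega) j hj1 (by push_cast; linarith)
    · refine (h3 j (by push_cast; linarith)).trans ?_
      push_cast
      apply one_div_le_one_div_of_le (by positivity)
      linarith
    · exact h4 m hm1 (by omega)
  have hempty : ∃ n, C n = ∅ := by
    by_contra hcon
    push Not at hcon
    obtain ⟨⟨b, d⟩, hx⟩ := IsCompact.nonempty_iInter_of_sequence_nonempty_isCompact_isClosed C hanti
      (fun n => hcon n) (hXc.of_isClosed_subset (hcl 0) Set.inter_subset_left) hcl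
    rw [Set.mem_iInter] at hx
    have hXd := (hx 0).1
    have hb1 : ∑ i, |b i| = 1 := hXd.1
    have hb0 : b ≠ 0 := by
      rintro rfl
      simp at hb1
    have hrec : ∀ j : ℤ, ∑ i, b i * dd d (j + (i : ℕ)) = 0 := by
      intro j
      rw [← abs_eq_zero]
      refine le_antisymm ?_ (abs_nonneg _)
      refine ge_of_tendsto tendsto_one_div_add_atTop_nhds_zero_nat ?_
      rw [eventually_atTop]
      refine ⟨j.natAbs, fun n hn => ?_⟩
      refine (hx n).2.2.1 j ?_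
      rw [Int.abs_eq_natAbs]
      exact_mod_cast hn
    have hgr : ∀ ε : ℝ, 0 < ε → ∃ B : ℝ, ∀ j : ℤ, |d j| ≤ B + ε * |(j : ℝ)| := by
      intro ε hε
      obtain ⟨q, hq⟩ := exists_nat_gt (1 / ε)
      have hq0 : (0 : ℝ) < q := lt_trans (by positivity) hq
      have hq1 : 1 ≤ q := by exact_mod_cast hq0
      refine ⟨A + Mf q, fun j => ?_⟩
      rcases le_or_gt (Mf q : ℤ) |j| with h | h
      · have h1 := (hx (max q j.natAbs)).2.1 q hq1 (le_max_left _ _) j h (by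
          rw [Int.abs_eq_natAbs]
          exact_mod_cast le_max_right _ _)
        have h2 : |(j : ℝ)| / q ≤ ε * |(j : ℝ)| := by
          rw [div_le_iff₀ hq0]
          have h3 : 1 ≤ ε * q := by
            rw [div_lt_iff₀ hε] at hq
            linarith
          have := abs_nonneg (j : ℝ)
          nlinarith
        have h3 : (0 : ℝ) ≤ Mf q := Nat.cast_nonneg _
        have h1' : |d j| ≤ |(j : ℝ)| / q := h1
        linarith
      · have h1 : |d j| ≤ A + |(j : ℝ)| := hXd.2 j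
        have h2 : |(j : ℝ)| ≤ Mf q := by
          have : |j| ≤ (Mf q : ℤ) := h.le
          exact_mod_cast this
        have h3 : 0 ≤ ε * |(j : ℝ)| := by positivity
        linarith
    obtain ⟨m, hm, h⟩ := real_ap b hb0 d hrec hgr (1 / 4) (by norm_num)
    obtain ⟨j, _, hj⟩ := (hx m).2.2.2 m hm le_rfl
    have h1 := h j
    have hj' : 1 / 2 ≤ |d (j + m) - d j| := hj
    linarith
  obtain ⟨n, hn⟩ := hempty
  obtain ⟨J, hJ, hJm⟩ : ∃ J : ℕ, n + k + 3 ≤ J ∧ ∀ m, m ≤ n → w m + m ≤ J := by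
    refine ⟨n + k + 3 + ∑ m ∈ Finset.range (n + 1), (w m + m), by omega, fun m hm => ?_⟩
    have : w m + m ≤ ∑ m ∈ Finset.range (n + 1), (w m + m) :=
      Finset.single_le_sum (f := fun m => w m + m) (fun _ _ => Nat.zero_le _)
        (Finset.mem_range.2 (show m < n + 1 by omega))
    omega
  have hJ' : (n : ℤ) + k + 3 ≤ J := by exact_mod_cast hJ
  refine ⟨J, 1 / (n + 1), by omega, by positivity, fun d h1 h2 b hb h3 => ?_⟩
  by_contra hcon
  push Not at hcon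
  set d' : ℤ → ℝ := fun j => if |j| ≤ J then d j else 0 with hd'
  have hdd : ∀ j : ℤ, |j| ≤ J → d' j = d j := fun j hj => if_pos hj
  have hmem : ((b, d') : (Fin (k + 1) → ℝ) × (ℤ → ℝ)) ∈ C n := by
    refine ⟨⟨hb, fun j => ?_⟩, fun q hq1 hq2 j hj1 hj2 => ?_, fun j hj => ?_, fun m hm1 hm2 => ?_⟩
    · by_cases hj : |j| ≤ J
      · show |d' j| ≤ _
        rw [hdd j hj]; exact h1 j hj
      · show |d' j| ≤ _
        simp only [hd']
        rw [if_neg hj, abs_zero]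
        positivity
    · have hj3 : |j| ≤ (J : ℤ) := by omega
      show |d' j| ≤ _
      rw [hdd j hj3]
      exact h2 q hq1 j hj1 hj3
    · have hj3 : |j| ≤ (J : ℤ) := by omega
      have h4 := h3 j hj3
      show |∑ i, b i * dd d' (j + (i : ℕ))| ≤ _
      have h5 : ∑ i, b i * dd d' (j + (i : ℕ)) = ∑ i, b i * dd d (j + (i : ℕ)) := by
        refine Finset.sum_congr rfl fun i _ => ?_
        have hi := i.isLt
        have a1 : |j + (i : ℕ)| ≤ (J : ℤ) := by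
          rw [abs_le] at hj ⊢; omega
        have a2 : |j + (i : ℕ) + 1| ≤ (J : ℤ) := by
          rw [abs_le] at hj ⊢; omega
        have a3 : |j + (i : ℕ) + 2| ≤ (J : ℤ) := by
          rw [abs_le] at hj ⊢; omega
        unfold dd
        rw [hdd _ a1, hdd _ a2, hdd _ a3]
      rw [h5]
      exact h4
    · obtain ⟨j, hj1, hj2⟩ := hcon m hm1 (by have := hJm m hm2; omega)
        (by have := hJm m hm2; omega)
      have h6 := hJm m hm2
      refine ⟨j, hj1, ?_⟩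
      show 1 / 2 ≤ |d' (j + m) - d' j|
      have a1 : |j| ≤ (J : ℤ) := by
        have : (w m : ℤ) + m ≤ J := by exact_mod_cast h6
        omega
      have a2 : |j + m| ≤ (J : ℤ) := by
        have : (w m : ℤ) + m ≤ J := by exact_mod_cast h6
        rw [abs_le] at hj1 ⊢
        omega
      rw [hdd _ a1, hdd _ a2]
      exact hj2.le
  rw [hn] at hmem
  exact hmem

end Pool.Agent.H8.LC
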