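import Pool.Agent.H8.LC.A2

/-! Blocks of consecutive terms of a sequence with regular gap sums are far from all linear
recurrences. -/

set_option autoImplicit false

open Filter Topology Finset

namespace Pool.Agent.H8.LC

/-- unfolded gaps of a sequence -/
noncomputable def dl (g : ℕ → ℝ) (n : ℕ) : ℝ :=
  (g (n + 1) - g n) / (2 * Real.pi) * Real.log (g n / (2 * Real.pi))

/-- partial sums of the unfolded gaps -/
noncomputable def Y (g : ℕ → ℝ) (n : ℕ) : ℝ := ∑ i ∈ range n, dl g i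

def Reg (g : ℕ → ℝ) (ε : ℝ) (a m : ℕ) : Prop := |∑ i ∈ range m, dl g (a + i) - m| ≤ ε * m

lemma Y_add (g : ℕ → ℝ) (n m : ℕ) : Y g (n + m) - Y g n = ∑ i ∈ range m, dl g (n + i) := by
  unfold Y
  rw [sum_range_add]; ring

/-- the deviation of the unfolded sequence at `n0` -/
noncomputable def dev (g : ℕ → ℝ) (n0 : ℕ) (j : ℤ) : ℝ := Y g ((n0 : ℤ) + j).toNat - Y g n0 - j

lemma Y_mono (g : ℕ → ℝ) (n1 : ℕ) (hpos : ∀ i, n1 ≤ i → 0 ≤ dl g i) (a b : ℕ) (ha : n1 ≤ a)
    (hab : a ≤ b) : Y g a ≤ Y g b := by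
  obtain ⟨m, rfl⟩ := Nat.exists_eq_add_of_le hab
  have := Y_add g a m
  have h2 : 0 ≤ ∑ i ∈ range m, dl g (a + i) := sum_nonneg fun i _ => hpos _ (by omega)
  linarith

/-- growth of the deviation -/
lemma growth (g : ℕ → ℝ) (Mf : ℕ → ℕ) (hMf : ∀ q, q + 1 ≤ Mf q) (n0 n1 J : ℕ) (hn1 : 1 ≤ n1)
    (hn0 : n1 + J + Mf 1 ≤ n0) (hpos : ∀ i, n1 ≤ i → 0 ≤ dl g i)
    (h0 : ∀ q : ℕ, 1 ≤ q → q ≤ J + 1 → ∀ a m : ℕ, 1 ≤ a → a ≤ n0 → n0 < a + m → Mf q ≤ m →
      Reg g (1 / q) a m)
    (h1 : ∀ q : ℕ, 1 ≤ q → q ≤ J + 1 → ∀ a m : ℕ, 1 ≤ a → a ≤ n0 - 1 → n0 - 1 < a + m →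
      Mf q ≤ m → Reg g (1 / q) a m) :
    (∀ j : ℤ, |j| ≤ J → |dev g n0 j| ≤ 2 * Mf 1 + |(j : ℝ)|) ∧
    (∀ q : ℕ, 1 ≤ q → ∀ j : ℤ, (Mf q : ℤ) ≤ |j| → |j| ≤ J → |dev g n0 j| ≤ |(j : ℝ)| / q) := by
  have hfw : ∀ m : ℕ, dev g n0 m = ∑ i ∈ range m, dl g (n0 + i) - m := by
    intro m
    unfold dev
    have e : ((n0 : ℤ) + m).toNat = n0 + m := by omega
    rw [e, Y_add]
    simp
  have hbw : ∀ m : ℕ, m ≤ J → dev g n0 (-(m : ℤ)) = -(∑ i ∈ range m, dl g (n0 - m + i) - m) := by
    intro m hm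
    unfold dev
    have e : ((n0 : ℤ) + -(m : ℤ)).toNat = n0 - m := by omega
    rw [e]
    have h2 := Y_add g (n0 - m) m
    rw [Nat.sub_add_cancel (by omega : m ≤ n0)] at h2
    rw [← h2]
    push_cast
    ring
  have hpos2 : ∀ q : ℕ, 1 ≤ q → ∀ j : ℤ, (Mf q : ℤ) ≤ |j| → |j| ≤ J →
      |dev g n0 j| ≤ |(j : ℝ)| / q := by
    intro q hq j hj1 hj2
    have hqJ : q ≤ J + 1 := by have := hMf q; omega
    have hM1 := hMf q
    rcases le_or_gt 0 j with hj | hj
    · obtain ⟨m, rfl⟩ := Int.eq_ofNat_of_zero_le hj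
      rw [Int.abs_eq_natAbs, Int.natAbs_natCast] at hj1 hj2
      have h3 : Mf q ≤ m := by exact_mod_cast hj1
      rw [hfw]
      have h4 := h0 q hq hqJ n0 m (by omega) le_rfl (by omega) h3
      unfold Reg at h4
      refine h4.trans (le_of_eq ?_)
      have : |((m : ℤ) : ℝ)| = m := by simp
      rw [this]; ring
    · obtain ⟨m, hm⟩ := Int.eq_ofNat_of_zero_le (show 0 ≤ -j by omega)
      have hj' : j = -(m : ℤ) := by omega
      subst hj'
      rw [abs_neg, Int.abs_eq_natAbs, Int.natAbs_natCast] at hj1 hj2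
      have h3 : Mf q ≤ m := by exact_mod_cast hj1
      have h5 : m ≤ J := by exact_mod_cast hj2
      rw [hbw m h5, abs_neg]
      have h4 := h1 q hq hqJ (n0 - m) m (by omega) (by omega) (by omega) h3
      unfold Reg at h4
      refine h4.trans (le_of_eq ?_)
      have : |((-(m : ℤ) : ℤ) : ℝ)| = m := by simp
      rw [this]; ring
  refine ⟨fun j hj => ?_, hpos2⟩
  rcases le_or_gt ((Mf 1 : ℕ) : ℤ) |j| with h | h
  · have h2 := hpos2 1 le_rfl j h hj
    rw [Nat.cast_one, div_one] at h2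
    have : (0 : ℝ) ≤ Mf 1 := Nat.cast_nonneg _
    linarith
  · have hM0 : (0 : ℝ) ≤ Mf 1 := Nat.cast_nonneg _
    rcases le_or_gt 0 j with hj0 | hj0
    · obtain ⟨m, rfl⟩ := Int.eq_ofNat_of_zero_le hj0
      rw [Int.abs_eq_natAbs, Int.natAbs_natCast] at h hj
      have h3 : m < Mf 1 := by exact_mod_cast h
      rw [hfw]
      have h4 := h0 1 le_rfl (by omega) n0 (Mf 1) (by omega) le_rfl (by have := hMf 1; omega) le_rfl
      unfold Reg at h4
      rw [Nat.cast_one, div_one, one_mul, abs_le] at h4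
      have h5 := Y_mono g n1 hpos n0 (n0 + m) (by omega) (by omega)
      have h6 := Y_mono g n1 hpos (n0 + m) (n0 + Mf 1) (by omega) (by omega)
      have h7 := Y_add g n0 m
      have h8 := Y_add g n0 (Mf 1)
      have e : |((m : ℤ) : ℝ)| = m := by simp
      have hm0 : (0 : ℝ) ≤ m := Nat.cast_nonneg _
      rw [e, abs_le]
      constructor <;> linarith [h4.1, h4.2]
    · obtain ⟨m, hm⟩ := Int.eq_ofNat_of_zero_le (show 0 ≤ -j by omega)
      have hj' : j = -(m : ℤ) := by omega
      subst hj'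
      rw [abs_neg, Int.abs_eq_natAbs, Int.natAbs_natCast] at h hj
      have h3 : m < Mf 1 := by exact_mod_cast h
      have h3' : m ≤ J := by exact_mod_cast hj
      rw [hbw m h3', abs_neg]
      have h4 := h1 1 le_rfl (by omega) (n0 - Mf 1) (Mf 1) (by omega) (by have := hMf 1; omega)
        (by have := hMf 1; omega) le_rfl
      unfold Reg at h4
      rw [Nat.cast_one, div_one, one_mul, abs_le] at h4
      have h5 := Y_mono g n1 hpos (n0 - m) n0 (by omega) (by omega)
      have h6 := Y_mono g n1 hpos (n0 - Mf 1) (n0 - m) (by omega) (by omega)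
      have h7 := Y_add g (n0 - m) m
      have h8 := Y_add g (n0 - Mf 1) (Mf 1)
      rw [Nat.sub_add_cancel (by omega : m ≤ n0)] at h7
      rw [Nat.sub_add_cancel (by omega : Mf 1 ≤ n0)] at h8
      have e : |((-(m : ℤ) : ℤ) : ℝ)| = m := by simp
      have hm0 : (0 : ℝ) ≤ m := Nat.cast_nonneg _
      rw [e, abs_le]
      constructor <;> linarith [h4.1, h4.2]

/-- comparison of the unfolded sequence with the original one on a block -/
lemma unfold_err (g : ℕ → ℝ) (n m : ℕ) (hn : 1 ≤ n) (hmono : ∀ a b, 1 ≤ a → a ≤ b → g a ≤ g b)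
    (hg : 1 ≤ Real.log (g n / (2 * Real.pi))) (h0 : 0 < g n) (hsum : Y g (n + m) - Y g n ≤ 2 * m)
    (u : ℕ) (hu : u ≤ m) :
    |Y g (n + u) - Y g n - Real.log (g n / (2 * Real.pi)) / (2 * Real.pi) * (g (n + u) - g n)| ≤
      (4 * Real.pi * m) ^ 2 / g n := by
  have hpi := Real.pi_pos
  set l := Real.log (g n / (2 * Real.pi)) with hl
  have hge : ∀ i, g n ≤ g (n + i) := fun i => hmono _ _ hn (by omega)
  have hgap : ∀ i, g (n + i) ≤ g (n + i + 1) := fun i => hmono _ _ (by omega) (by omega)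
  have hlog : ∀ i, l ≤ Real.log (g (n + i) / (2 * Real.pi)) := fun i => by
    rw [hl]
    apply Real.log_le_log (by positivity)
    have := hge i
    gcongr
  -- the block has bounded length
  have hG : g (n + m) - g n ≤ 4 * Real.pi * m := by
    have h1 : (g (n + m) - g n) / (2 * Real.pi) ≤ Y g (n + m) - Y g n := by
      rw [Y_add]
      have h2 : (g (n + m) - g n) / (2 * Real.pi) =
          ∑ i ∈ range m, (g (n + (i + 1)) - g (n + i)) / (2 * Real.pi) := by
        rw [← sum_div, sum_range_sub (fun i => g (n + i)) m, add_zero]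
      rw [h2]
      refine sum_le_sum fun i _ => ?_
      unfold dl
      have h3 : 0 ≤ (g (n + i + 1) - g (n + i)) / (2 * Real.pi) := by
        have := hgap i
        apply div_nonneg _ (by positivity)
        linarith
      have h4 : 1 ≤ Real.log (g (n + i) / (2 * Real.pi)) := hg.trans (hlog i)
      rw [← add_assoc]
      nlinarith
    rw [div_le_iff₀ (by positivity)] at h1
    nlinarith
  have hG0 : 0 ≤ 4 * Real.pi * m := by positivity
  have key : Y g (n + u) - Y g n - l / (2 * Real.pi) * (g (n + u) - g n) =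
      ∑ i ∈ range u, (g (n + (i + 1)) - g (n + i)) * ((Real.log (g (n + i) / (2 * Real.pi)) - l) /
        (2 * Real.pi)) := by
    rw [Y_add]
    have h2 : g (n + u) - g n = ∑ i ∈ range u, (g (n + (i + 1)) - g (n + i)) := by
      rw [sum_range_sub (fun i => g (n + i)) u, add_zero]
    rw [h2, mul_sum, ← sum_sub_distrib]
    refine sum_congr rfl fun i _ => ?_
    unfold dl
    rw [← add_assoc]
    ring
  have hterm : ∀ i ∈ range u, 0 ≤ (g (n + (i + 1)) - g (n + i)) *
      ((Real.log (g (n + i) / (2 * Real.pi)) - l) / (2 * Real.pi)) ∧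
      (g (n + (i + 1)) - g (n + i)) * ((Real.log (g (n + i) / (2 * Real.pi)) - l) /
        (2 * Real.pi)) ≤ (g (n + (i + 1)) - g (n + i)) * (4 * Real.pi * m / g n) := by
    intro i hi
    have hi' := mem_range.1 hi
    have h3 : 0 ≤ g (n + (i + 1)) - g (n + i) := by
      have := hgap i
      rw [add_assoc] at this
      linarith
    have h4 : 0 ≤ Real.log (g (n + i) / (2 * Real.pi)) - l := by linarith [hlog i]
    have h5 : Real.log (g (n + i) / (2 * Real.pi)) - l ≤ 4 * Real.pi * m / g n := by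
      rw [hl, ← Real.log_div (by have h9 : 0 < g (n + i) := by linarith [hge i]
                                 positivity) (by positivity)]
      have e : g (n + i) / (2 * Real.pi) / (g n / (2 * Real.pi)) = g (n + i) / g n := by
        field_simp
      rw [e]
      have h6 := Real.log_le_sub_one_of_pos (show 0 < g (n + i) / g n by
        have := hge i; apply div_pos (by linarith) h0)
      refine h6.trans ?_
      rw [div_sub_one h0.ne']
      apply div_le_div_of_nonneg_right _ h0.le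
      have h7 : g (n + i) ≤ g (n + m) := hmono _ _ (by omega) (by omega)
      linarith
    have h6 : (Real.log (g (n + i) / (2 * Real.pi)) - l) / (2 * Real.pi) ≤ 4 * Real.pi * m / g n := by
      refine (div_le_self h4 ?_).trans h5
      linarith [Real.pi_gt_three]
    exact ⟨mul_nonneg h3 (div_nonneg h4 (by positivity)), mul_le_mul_of_nonneg_left h6 h3⟩
  rw [key, abs_of_nonneg (sum_nonneg fun i hi => (hterm i hi).1)]
  calc _ ≤ ∑ i ∈ range u, (g (n + (i + 1)) - g (n + i)) * (4 * Real.pi * m / g n) :=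
        sum_le_sum fun i hi => (hterm i hi).2
    _ = (g (n + u) - g n) * (4 * Real.pi * m / g n) := by
        rw [← sum_mul, sum_range_sub (fun i => g (n + i)) u, add_zero]
    _ ≤ (4 * Real.pi * m) * (4 * Real.pi * m / g n) := by
        have h7 : g (n + u) ≤ g (n + m) := hmono _ _ (by omega) (by omega)
        gcongr
        linarith
    _ = _ := by ring

end Pool.Agent.H8.LC
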