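import Pool.Agent.H8.LC.A3

/-! Blocks of consecutive terms of a sequence with regular gap sums are far from all linear
recurrences: the recurrence in terms of the unfolded sequence. -/

set_option autoImplicit false

open Filter Topology Finset

namespace Pool.Agent.H8.LC

/-- a near recurrence of the sequence gives a near recurrence of the deviation -/
lemma rel (g : ℕ → ℝ) (k J n m : ℕ) (hn : 1 ≤ n) (hmono : ∀ a b, 1 ≤ a → a ≤ b → g a ≤ g b)
    (hg : 1 ≤ Real.log (g n / (2 * Real.pi))) (h0 : 0 < g n) (hsum : Y g (n + m) - Y g n ≤ 2 * m)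
    (hm : 2 * J + k + 3 ≤ m) (b : Fin (k + 1) → ℝ) (r δ ρ : ℝ) (hb : ∑ i, |b i| = 1)
    (hρ : (4 * Real.pi * m) ^ 2 / g n ≤ ρ)
    (hr : ∀ j : ℕ, j < 2 * J + 3 → |∑ i, b i * g (n + j + (i : ℕ)) - r| * Real.log (g n) ≤ δ) :
    ∀ j : ℤ, |j| ≤ J → |∑ i, b i * dd (dev g (n + J)) (j + (i : ℕ))| ≤ 4 * δ + 4 * ρ := by
  have hpi := Real.pi_pos
  have hpi3 := Real.pi_gt_three
  intro j hj
  obtain ⟨u, hu⟩ : ∃ u : ℕ, (u : ℤ) = J + j := ⟨(J + j).toNat, by
    rw [abs_le] at hj; omega⟩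
  have huJ : u ≤ 2 * J := by rw [abs_le] at hj; omega
  set l := Real.log (g n / (2 * Real.pi)) / (2 * Real.pi) with hl
  set E : ℕ → ℝ := fun v => Y g (n + v) - Y g n - l * (g (n + v) - g n) with hE
  have hEb : ∀ v, v ≤ m → |E v| ≤ ρ := fun v hv =>
    (unfold_err g n m hn hmono hg h0 hsum v hv).trans hρ
  have hd : ∀ i : ℕ, dd (dev g (n + J)) (j + i) = l * (g (n + (u + 2) + i) - 2 * g (n + (u + 1) + i) +
      g (n + u + i)) + (E (u + i + 2) - 2 * E (u + i + 1) + E (u + i)) := by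
    intro i
    unfold dd dev
    have e1 : (((n + J : ℕ) : ℤ) + (j + i + 2)).toNat = n + (u + i + 2) := by omega
    have e2 : (((n + J : ℕ) : ℤ) + (j + i + 1)).toNat = n + (u + i + 1) := by omega
    have e3 : (((n + J : ℕ) : ℤ) + (j + i)).toNat = n + (u + i) := by omega
    rw [e1, e2, e3]
    simp only [hE]
    have f1 : n + (u + 2) + i = n + (u + i + 2) := by ring
    have f2 : n + (u + 1) + i = n + (u + i + 1) := by ring
    have f3 : n + u + i = n + (u + i) := by ring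
    rw [f1, f2, f3]
    push_cast
    ring
  have hsumd : ∑ i, b i * dd (dev g (n + J)) (j + (i : ℕ)) =
      l * ((∑ i, b i * g (n + (u + 2) + (i : ℕ)) - r) - 2 * (∑ i, b i * g (n + (u + 1) + (i : ℕ)) - r) +
        (∑ i, b i * g (n + u + (i : ℕ)) - r)) +
      ∑ i, b i * (E (u + (i : ℕ) + 2) - 2 * E (u + (i : ℕ) + 1) + E (u + (i : ℕ))) := by
    simp only [hd]
    have e : ∀ i : Fin (k + 1), b i * (l * (g (n + (u + 2) + (i : ℕ)) - 2 * g (n + (u + 1) + (i : ℕ)) +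
        g (n + u + (i : ℕ))) + (E (u + (i : ℕ) + 2) - 2 * E (u + (i : ℕ) + 1) + E (u + (i : ℕ)))) =
        l * (b i * g (n + (u + 2) + (i : ℕ))) - 2 * l * (b i * g (n + (u + 1) + (i : ℕ))) +
          l * (b i * g (n + u + (i : ℕ))) +
          b i * (E (u + (i : ℕ) + 2) - 2 * E (u + (i : ℕ) + 1) + E (u + (i : ℕ))) := fun i => by ring
    simp only [e]
    rw [sum_add_distrib, sum_add_distrib, sum_sub_distrib, ← mul_sum, ← mul_sum, ← mul_sum]
    ring
  rw [hsumd]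
  have hl0 : 0 ≤ l := by rw [hl]; positivity
  have hL1 : Real.log (g n / (2 * Real.pi)) ≤ Real.log (g n) := by
    apply Real.log_le_log (by positivity)
    apply div_le_self h0.le
    linarith
  have hlL : l ≤ Real.log (g n) := by
    rw [hl]
    refine (div_le_self (by linarith) ?_).trans hL1
    linarith
  have hR : ∀ v : ℕ, v < 2 * J + 3 → l * |∑ i, b i * g (n + v + (i : ℕ)) - r| ≤ δ := by
    intro v hv
    refine le_trans ?_ (hr v hv)
    rw [mul_comm]
    exact mul_le_mul_of_nonneg_left hlL (abs_nonneg _)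
  have a1 := hR (u + 2) (by omega)
  have a2 := hR (u + 1) (by omega)
  have a3 := hR u (by omega)
  set R2 := ∑ i, b i * g (n + (u + 2) + (i : ℕ)) - r with hR2
  set R1 := ∑ i, b i * g (n + (u + 1) + (i : ℕ)) - r with hR1
  set R0 := ∑ i, b i * g (n + u + (i : ℕ)) - r with hR0
  have p1 : |l * (R2 - 2 * R1 + R0)| ≤ 4 * δ := by
    rw [abs_mul, abs_of_nonneg hl0]
    have : |R2 - 2 * R1 + R0| ≤ |R2| + 2 * |R1| + |R0| := by
      calc |R2 - 2 * R1 + R0| ≤ |R2 - 2 * R1| + |R0| := abs_add_le _ _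
        _ ≤ |R2| + |2 * R1| + |R0| := by gcongr; exact abs_sub _ _
        _ = _ := by rw [abs_mul, abs_two]
    nlinarith
  have p2 : |∑ i, b i * (E (u + (i : ℕ) + 2) - 2 * E (u + (i : ℕ) + 1) + E (u + (i : ℕ)))| ≤
      4 * ρ := by
    calc _ ≤ ∑ i, |b i * (E (u + (i : ℕ) + 2) - 2 * E (u + (i : ℕ) + 1) + E (u + (i : ℕ)))| :=
          abs_sum_le_sum_abs _ _
      _ ≤ ∑ i, |b i| * (4 * ρ) := by
          refine sum_le_sum fun i _ => ?_
          rw [abs_mul]
          apply mul_le_mul_of_nonneg_left _ (abs_nonneg _)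
          have hi := i.isLt
          have b1 := hEb (u + (i : ℕ) + 2) (by omega)
          have b2 := hEb (u + (i : ℕ) + 1) (by omega)
          have b3 := hEb (u + (i : ℕ)) (by omega)
          rw [abs_le] at b1 b2 b3 ⊢
          constructor <;> linarith [b1.1, b1.2, b2.1, b2.2, b3.1, b3.2]
      _ = 4 * ρ := by rw [← sum_mul, hb, one_mul]
  exact (abs_add_le _ _).trans (add_le_add p1 p2)

/-- what is needed of a sequence -/
structure Hyp (g : ℕ → ℝ) : Prop where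
  mono : ∀ n m, 1 ≤ n → n ≤ m → g n ≤ g m
  top : Tendsto g atTop atTop
  reg : ∀ ε : ℝ, 0 < ε → ε ≤ 1 → ∃ c : ℝ, 0 < c ∧ ∃ M₀ : ℕ, ∀ N : ℕ, 1 ≤ N → ∀ M : ℕ, M₀ ≤ M →
    ({n : ℕ | 1 ≤ n ∧ n ≤ N ∧ ∃ a m : ℕ, 1 ≤ a ∧ a ≤ n ∧ n < a + m ∧ M ≤ m ∧
      ¬ Reg g ε a m}.ncard : ℝ) ≤ N * Real.exp (-c * (M * Real.log M))
  runs : ∀ r : ℕ, 1 ≤ r → ∀ ε : ℝ, 0 < ε → ∃ w N₀ : ℕ, ∀ N : ℕ, N₀ ≤ N →
    ({n : ℕ | 1 ≤ n ∧ n ≤ N ∧ ∀ j < w, ¬ ((r : ℝ) + Real.sqrt r - 3 / 20 <
      ∑ i ∈ range r, dl g (n + j + i))}.ncard : ℝ) ≤ ε * N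

/-- bad indices -/
def Bad (g : ℕ → ℝ) (q M N : ℕ) : Set ℕ :=
  {n : ℕ | 1 ≤ n ∧ n ≤ N ∧ ∃ a m : ℕ, 1 ≤ a ∧ a ≤ n ∧ n < a + m ∧ M ≤ m ∧ ¬ Reg g (1 / q) a m}

def Run (g : ℕ → ℝ) (r w N : ℕ) : Set ℕ :=
  {n : ℕ | 1 ≤ n ∧ n ≤ N ∧ ∀ j < w, ¬ ((r : ℝ) + Real.sqrt r - 3 / 20 <
      ∑ i ∈ range r, dl g (n + j + i))}

lemma Bad_fin (g : ℕ → ℝ) (q M N : ℕ) : (Bad g q M N).Finite :=
  (Set.finite_Iic N).subset fun _ h => h.2.1

lemma Run_fin (g : ℕ → ℝ) (r w N : ℕ) : (Run g r w N).Finite :=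
  (Set.finite_Iic N).subset fun _ h => h.2.1

lemma exists_Mf {g : ℕ → ℝ} (hg : Hyp g) (η : ℝ) (hη : 0 < η) :
    ∃ Mf : ℕ → ℕ, (∀ q, q + 1 ≤ Mf q) ∧ ∀ q, 1 ≤ q → ∀ N : ℕ, 1 ≤ N →
      ((Bad g q (Mf q) N).ncard : ℝ) ≤ η * (1 / 2) ^ q * N := by
  have h : ∀ q : ℕ, ∃ M : ℕ, q + 1 ≤ M ∧ (1 ≤ q → ∀ N : ℕ, 1 ≤ N →
      ((Bad g q M N).ncard : ℝ) ≤ η * (1 / 2) ^ q * N) := by
    intro q
    by_cases hq : 1 ≤ q
    · have hq1 : (1 : ℝ) ≤ q := by exact_mod_cast hq
      obtain ⟨c, hc, M₀, h1⟩ := hg.reg (1 / q) (by positivity) (by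
        rw [div_le_one (by positivity)]; exact hq1)
      have h2 : Tendsto (fun M : ℕ => c * ((M : ℝ) * Real.log M)) atTop atTop := by
        apply Tendsto.const_mul_atTop hc
        exact tendsto_natCast_atTop_atTop.atTop_mul_atTop₀
          (Real.tendsto_log_atTop.comp tendsto_natCast_atTop_atTop)
      have h3 := (Real.tendsto_exp_neg_atTop_nhds_zero.comp h2).eventually_lt_const
        (show (0 : ℝ) < η * (1 / 2) ^ q by positivity)
      obtain ⟨M, hM1, hM2⟩ := (h3.and (eventually_ge_atTop (max M₀ (q + 1)))).exists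
      refine ⟨M, (le_max_right _ _).trans hM2, fun _ N hN => ?_⟩
      refine (h1 N hN M ((le_max_left _ _).trans hM2)).trans ?_
      rw [mul_comm]
      simp only [Function.comp_apply] at hM1
      have e : -c * ((M : ℝ) * Real.log M) = -(c * ((M : ℝ) * Real.log M)) := by ring
      rw [e]
      exact mul_le_mul_of_nonneg_right hM1.le (Nat.cast_nonneg N)
    · exact ⟨q + 1, le_rfl, fun h => absurd h hq⟩
  choose Mf h1 h2 using h
  exact ⟨Mf, h1, h2⟩

lemma geom_half (J : ℕ) : ∑ q ∈ Icc 1 J, (1 / 2 : ℝ) ^ q ≤ 1 := by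
  have h : ∀ J : ℕ, ∑ q ∈ Icc 1 J, (1 / 2 : ℝ) ^ q = 1 - (1 / 2) ^ J := by
    intro J
    induction J with
    | zero => simp
    | succ J ih =>
      rw [sum_Icc_succ_top (by omega), ih, pow_succ]
      ring
  rw [h]
  have : (0 : ℝ) ≤ (1 / 2) ^ J := by positivity
  linarith

/-- **Almost all blocks are far from all recurrences.** -/
theorem blocks {g : ℕ → ℝ} (hg : Hyp g) (k : ℕ) (η : ℝ) (hη : 0 < η) :
    ∃ (m : ℕ) (δ : ℝ), 1 ≤ m ∧ 0 < δ ∧ ∀ᶠ N : ℕ in atTop,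
      ({n : ℕ | 1 ≤ n ∧ n ≤ N ∧ ∃ (b : Fin (k + 1) → ℝ) (r : ℝ), ∑ i, |b i| = 1 ∧
        ∀ j : ℕ, j < m → |∑ i, b i * g (n + j + (i : ℕ)) - r| * Real.log (g n) ≤ δ}.ncard : ℝ) ≤
        η * N := by
  classical
  have hpi := Real.pi_pos
  have hpi3 := Real.pi_gt_three
  obtain ⟨Mf, hMf, hBad⟩ := exists_Mf hg (η / 8) (by positivity)
  have hruns : ∀ r : ℕ, ∃ w N₀ : ℕ, 1 ≤ r → ∀ N : ℕ, N₀ ≤ N →
      ((Run g r w N).ncard : ℝ) ≤ η / 4 * (1 / 2) ^ r * N := by
    intro r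
    by_cases hr : 1 ≤ r
    · obtain ⟨w, N₀, h⟩ := hg.runs r hr (η / 4 * (1 / 2) ^ r) (by positivity)
      exact ⟨w, N₀, fun _ => h⟩
    · exact ⟨0, 0, fun h => absurd h hr⟩
  choose w Nr hrun using hruns
  obtain ⟨J, δ, hJ1, hδ, hcomp⟩ := compact_ap k (2 * Mf 1) (by positivity) Mf w
  set m1 : ℕ := 2 * J + k + 3 + Mf 1 with hm1
  obtain ⟨n1, hn1, hn1'⟩ : ∃ n1 : ℕ, 1 ≤ n1 ∧ ∀ n, n1 ≤ n →
      2 * Real.pi * Real.exp 1 ≤ g n ∧ (4 * Real.pi * m1) ^ 2 / (δ / 8) ≤ g n := by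
    obtain ⟨n1, h⟩ := ((hg.top.eventually_ge_atTop (2 * Real.pi * Real.exp 1)).and
      (hg.top.eventually_ge_atTop ((4 * Real.pi * m1) ^ 2 / (δ / 8)))).exists_forall_of_atTop
    exact ⟨max n1 1, le_max_right _ _, fun n hn => h n ((le_max_left _ _).trans hn)⟩
  have hlog : ∀ n, n1 ≤ n → 1 ≤ Real.log (g n / (2 * Real.pi)) := by
    intro n hn
    have h1 := (hn1' n hn).1
    rw [Real.le_log_iff_exp_le (by
      have := Real.exp_pos 1
      have : 0 < g n := lt_of_lt_of_le (by positivity) h1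
      positivity), le_div_iff₀ (by positivity)]
    linarith
  have hgpos : ∀ n, n1 ≤ n → 0 < g n := fun n hn =>
    lt_of_lt_of_le (by have := Real.exp_pos 1; positivity) (hn1' n hn).1
  have hdl : ∀ i, n1 ≤ i → 0 ≤ dl g i := by
    intro i hi
    unfold dl
    have h1 := hlog i hi
    have h2 := hg.mono i (i + 1) (by omega) (by omega)
    apply mul_nonneg (div_nonneg (by linarith) (by positivity)) (by linarith)
  set n2 := n1 + J + Mf 1 with hn2
  set Nm := ∑ r ∈ Icc 1 J, Nr r with hNm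
  have hfin : ∀ᶠ N : ℕ in atTop, ((n2 : ℝ) + 1) + η / 2 * (N + J) ≤ η * N := by
    have : Tendsto (fun N : ℕ => (η / 2) * (N : ℝ)) atTop atTop :=
      tendsto_natCast_atTop_atTop.const_mul_atTop (by positivity)
    filter_upwards [this.eventually_ge_atTop ((n2 : ℝ) + 1 + η / 2 * J)] with N hN
    linarith
  refine ⟨2 * J + 3, δ / 8, by omega, by positivity, ?_⟩
  filter_upwards [hfin, eventually_ge_atTop (max 1 Nm)] with N hN hN1
  have hN1' : 1 ≤ N := (le_max_left _ _).trans hN1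
  have hNNm : Nm ≤ N := (le_max_right _ _).trans hN1
  -- the exceptional set is covered
  set Ex : Set ℕ := {n : ℕ | 1 ≤ n ∧ n ≤ N ∧ ∃ (b : Fin (k + 1) → ℝ) (r : ℝ), ∑ i, |b i| = 1 ∧
        ∀ j : ℕ, j < 2 * J + 3 → |∑ i, b i * g (n + j + (i : ℕ)) - r| * Real.log (g n) ≤ δ / 8}
    with hEx
  set FB : ℕ → Finset ℕ := fun q => (Bad_fin g q (Mf q) (N + J)).toFinset with hFB
  set FR : ℕ → Finset ℕ := fun r => (Run_fin g r (w r) (N + J)).toFinset with hFR
  set U : Finset ℕ := range (n2 + 1) ∪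
    (((Icc 1 (J + 1)).biUnion fun q => (FB q).image (fun x => x - J)) ∪
    (((Icc 1 (J + 1)).biUnion fun q => (FB q).image (fun x => x + 1 - J)) ∪
    ((Icc 1 J).biUnion fun r => (FR r).image (fun x => x - J)))) with hU
  have hcov : Ex ⊆ (U : Set ℕ) := by
    rintro n ⟨hn1a, hnN, b, r, hb, hrel⟩
    rw [mem_coe, hU]
    by_contra hcon
    simp only [mem_union, mem_biUnion, mem_image, mem_range, not_or, not_exists, not_and,
      mem_Icc, hFB, hFR, Set.Finite.mem_toFinset] at hcon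
    obtain ⟨c1, c2, c3, c4⟩ := hcon
    have hnn2 : n2 < n := by omega
    have g0 : ∀ q : ℕ, 1 ≤ q → q ≤ J + 1 → ∀ a m : ℕ, 1 ≤ a → a ≤ n + J → n + J < a + m →
        Mf q ≤ m → Reg g (1 / q) a m := by
      intro q hq1 hq2 a m h1 h2 h3 h4
      by_contra h5
      exact c2 q ⟨hq1, hq2⟩ (n + J) ⟨by omega, by omega, a, m, h1, h2, h3, h4, h5⟩ (by omega)
    have g1 : ∀ q : ℕ, 1 ≤ q → q ≤ J + 1 → ∀ a m : ℕ, 1 ≤ a → a ≤ n + J - 1 →
        n + J - 1 < a + m → Mf q ≤ m → Reg g (1 / q) a m := by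
      intro q hq1 hq2 a m h1 h2 h3 h4
      by_contra h5
      exact c3 q ⟨hq1, hq2⟩ (n + J - 1) ⟨by omega, by omega, a, m, h1, h2, h3, h4, h5⟩ (by omega)
    obtain ⟨gr1, gr2⟩ := growth g Mf hMf (n + J) n1 J hn1 (by omega) hdl g0 g1
    have hsum : Y g (n + m1) - Y g n ≤ 2 * m1 := by
      have h5 := g0 1 le_rfl (by omega) n m1 (by omega) (by omega) (by omega) (by omega)
      unfold Reg at h5
      rw [Nat.cast_one, div_one, one_mul, abs_le, ← Y_add] at h5
      linarith [h5.2]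
    have hρ : (4 * Real.pi * m1) ^ 2 / g n ≤ δ / 8 := by
      have h5 := (hn1' n (by omega)).2
      have h6 := hgpos n (by omega)
      rw [div_le_iff₀ (by positivity)] at h5
      rw [div_le_iff₀ h6]
      linarith
    have hR := rel g k J n m1 (by omega) hg.mono (hlog n (by omega)) (hgpos n (by omega)) hsum
      (by omega) b r (δ / 8) (δ / 8) hb hρ hrel
    obtain ⟨m, hm1', hm2, hm3, hm4⟩ := hcomp (dev g (n + J)) gr1 gr2 b hb (fun j hj => by
      have := hR j hj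
      linarith)
    refine c4 m ⟨hm1', hm2⟩ (n + J) ⟨by omega, by omega, fun j hj => ?_⟩ (by omega)
    have h7 := hm4 j (by rw [Int.abs_eq_natAbs, Int.natAbs_natCast]; omega)
    have h8 : dev g (n + J) ((j : ℤ) + m) - dev g (n + J) j =
        ∑ i ∈ range m, dl g (n + J + j + i) - m := by
      unfold dev
      have e1 : (((n + J : ℕ) : ℤ) + ((j : ℤ) + m)).toNat = n + J + j + m := by omega
      have e2 : (((n + J : ℕ) : ℤ) + (j : ℤ)).toNat = n + J + j := by omega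
      rw [e1, e2, ← Y_add]
      push_cast
      ring
    rw [h8] at h7
    have h9 := (abs_le.1 h7).2
    have h10 : 1 ≤ Real.sqrt m := by
      rw [Real.one_le_sqrt]
      exact_mod_cast hm1'
    intro h11
    linarith
  have hcard : (Ex.ncard : ℝ) ≤ U.card := by
    rw [← Set.ncard_coe_finset]
    exact_mod_cast Set.ncard_le_ncard hcov (Finset.finite_toSet U)
  have hB : ∀ q ∈ Icc 1 (J + 1), ((FB q).card : ℝ) ≤ η / 8 * (1 / 2) ^ q * (N + J) := by
    intro q hq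
    have h1 := hBad q (mem_Icc.1 hq).1 (N + J) (by omega)
    rw [Set.ncard_eq_toFinset_card _ (Bad_fin g q (Mf q) (N + J))] at h1
    push_cast at h1
    exact h1
  have hRn : ∀ r ∈ Icc 1 J, ((FR r).card : ℝ) ≤ η / 4 * (1 / 2) ^ r * (N + J) := by
    intro r hr
    have h0 : Nr r ≤ Nm := single_le_sum (f := Nr) (fun _ _ => Nat.zero_le _) hr
    have h1 := hrun r (mem_Icc.1 hr).1 (N + J) (by omega)
    rw [Set.ncard_eq_toFinset_card _ (Run_fin g r (w r) (N + J))] at h1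
    push_cast at h1
    exact h1
  have hNJ : (0 : ℝ) ≤ N + J := by positivity
  have s1 : ((((Icc 1 (J + 1)).biUnion fun q => (FB q).image (fun x => x - J)).card : ℕ) : ℝ) ≤
      η / 8 * (N + J) := by
    calc _ ≤ ((∑ q ∈ Icc 1 (J + 1), ((FB q).image (fun x => x - J)).card : ℕ) : ℝ) := by
          exact_mod_cast card_biUnion_le
      _ ≤ ∑ q ∈ Icc 1 (J + 1), η / 8 * (1 / 2) ^ q * (N + J) := by
          push_cast
          refine sum_le_sum fun q hq => le_trans ?_ (hB q hq)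
          exact_mod_cast card_image_le
      _ = η / 8 * (N + J) * ∑ q ∈ Icc 1 (J + 1), (1 / 2 : ℝ) ^ q := by
          rw [mul_sum]
          refine sum_congr rfl fun q _ => by ring
      _ ≤ η / 8 * (N + J) * 1 := by
          have := geom_half (J + 1)
          gcongr
      _ = _ := by ring
  have s2 : ((((Icc 1 (J + 1)).biUnion fun q => (FB q).image (fun x => x + 1 - J)).card : ℕ) : ℝ) ≤
      η / 8 * (N + J) := by
    calc _ ≤ ((∑ q ∈ Icc 1 (J + 1), ((FB q).image (fun x => x + 1 - J)).card : ℕ) : ℝ) := by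
          exact_mod_cast card_biUnion_le
      _ ≤ ∑ q ∈ Icc 1 (J + 1), η / 8 * (1 / 2) ^ q * (N + J) := by
          push_cast
          refine sum_le_sum fun q hq => le_trans ?_ (hB q hq)
          exact_mod_cast card_image_le
      _ = η / 8 * (N + J) * ∑ q ∈ Icc 1 (J + 1), (1 / 2 : ℝ) ^ q := by
          rw [mul_sum]
          refine sum_congr rfl fun q _ => by ring
      _ ≤ η / 8 * (N + J) * 1 := by
          have := geom_half (J + 1)
          gcongr
      _ = _ := by ring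
  have s3 : ((((Icc 1 J).biUnion fun r => (FR r).image (fun x => x - J)).card : ℕ) : ℝ) ≤
      η / 4 * (N + J) := by
    calc _ ≤ ((∑ r ∈ Icc 1 J, ((FR r).image (fun x => x - J)).card : ℕ) : ℝ) := by
          exact_mod_cast card_biUnion_le
      _ ≤ ∑ r ∈ Icc 1 J, η / 4 * (1 / 2) ^ r * (N + J) := by
          push_cast
          refine sum_le_sum fun r hr => le_trans ?_ (hRn r hr)
          exact_mod_cast card_image_le
      _ = η / 4 * (N + J) * ∑ r ∈ Icc 1 J, (1 / 2 : ℝ) ^ r := by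
          rw [mul_sum]
          refine sum_congr rfl fun r _ => by ring
      _ ≤ η / 4 * (N + J) * 1 := by
          have := geom_half J
          gcongr
      _ = _ := by ring
  have s0 : (U.card : ℝ) ≤ (n2 + 1) + (η / 8 * (N + J) + (η / 8 * (N + J) + η / 4 * (N + J))) := by
    have t1 := card_union_le (range (n2 + 1))
      (((Icc 1 (J + 1)).biUnion fun q => (FB q).image (fun x => x - J)) ∪
      (((Icc 1 (J + 1)).biUnion fun q => (FB q).image (fun x => x + 1 - J)) ∪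
      ((Icc 1 J).biUnion fun r => (FR r).image (fun x => x - J))))
    have t2 := card_union_le ((Icc 1 (J + 1)).biUnion fun q => (FB q).image (fun x => x - J))
      (((Icc 1 (J + 1)).biUnion fun q => (FB q).image (fun x => x + 1 - J)) ∪
      ((Icc 1 J).biUnion fun r => (FR r).image (fun x => x - J)))
    have t3 := card_union_le ((Icc 1 (J + 1)).biUnion fun q => (FB q).image (fun x => x + 1 - J))
      ((Icc 1 J).biUnion fun r => (FR r).image (fun x => x - J))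
    rw [card_range] at t1
    have t4 : U.card ≤ (n2 + 1) + ((((Icc 1 (J + 1)).biUnion fun q =>
        (FB q).image (fun x => x - J)).card) + ((((Icc 1 (J + 1)).biUnion fun q =>
        (FB q).image (fun x => x + 1 - J)).card) +
        (((Icc 1 J).biUnion fun r => (FR r).image (fun x => x - J)).card))) := by
      rw [hU]; omega
    have t5 : (U.card : ℝ) ≤ (n2 + 1) + ((((Icc 1 (J + 1)).biUnion fun q =>
        (FB q).image (fun x => x - J)).card) + ((((Icc 1 (J + 1)).biUnion fun q =>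
        (FB q).image (fun x => x + 1 - J)).card) +
        (((Icc 1 J).biUnion fun r => (FR r).image (fun x => x - J)).card))) := by
      exact_mod_cast t4
    linarith
  linarith

end Pool.Agent.H8.LC
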