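import Pool.Agent.H8.LC.A4

/-! Uniform positive proportion of the indices at which a linear relation fails. -/

set_option autoImplicit false

open Filter Topology Finset

namespace Pool.Agent.H8.LC

theorem positive {g : ℕ → ℝ} (hg : Hyp g) (k : ℕ) :
    ∃ c : ℝ, 0 < c ∧ ∀ᶠ N : ℕ in atTop, ∀ (b : Fin (k + 1) → ℝ) (r : ℝ), ∑ i, |b i| = 1 →
      c * N ≤ ({n : ℕ | 1 ≤ n ∧ n ≤ N ∧
        c < |∑ i, b i * g (n + (i : ℕ)) - r| * Real.log (g n)}.ncard : ℝ) := by
  classical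
  obtain ⟨m, δ, hm, hδ, hb⟩ := blocks hg k (1 / 2) (by norm_num)
  have hm0 : (0 : ℝ) < m := by exact_mod_cast hm
  obtain ⟨n1, hn1, hn1'⟩ : ∃ n1 : ℕ, 1 ≤ n1 ∧ ∀ n, n1 ≤ n → 1 ≤ g n := by
    obtain ⟨n1, h⟩ := (hg.top.eventually_ge_atTop 1).exists_forall_of_atTop
    exact ⟨max n1 1, le_max_right _ _, fun n hn => h n ((le_max_left _ _).trans hn)⟩
  obtain ⟨N0, hN0⟩ := hb.exists_forall_of_atTop
  set c : ℝ := min (1 / (4 * m)) (δ / 2) with hc
  have hc0 : 0 < c := by rw [hc]; positivity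
  have hc1 : c ≤ 1 / (4 * m) := min_le_left _ _
  have hc2 : c ≤ δ / 2 := min_le_right _ _
  refine ⟨c, hc0, ?_⟩
  have hlarge : ∀ᶠ N : ℕ in atTop, N0 + m + 1 ≤ N ∧ (4 * n1 + 4 * m : ℝ) ≤ N := by
    filter_upwards [eventually_ge_atTop (N0 + m + 1), eventually_ge_atTop (4 * n1 + 4 * m)]
      with N h1 h2
    exact ⟨h1, by exact_mod_cast h2⟩
  filter_upwards [hlarge] with N hN b r hb1
  obtain ⟨hNa, hNb⟩ := hN
  set F : Set ℕ := {n : ℕ | 1 ≤ n ∧ n ≤ N ∧
        c < |∑ i, b i * g (n + (i : ℕ)) - r| * Real.log (g n)} with hF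
  have hFf : F.Finite := (Set.finite_Iic N).subset fun _ h => h.2.1
  set N' := N - m with hN'
  have hex := hN0 N' (by omega)
  set Ex : Set ℕ := {n : ℕ | 1 ≤ n ∧ n ≤ N' ∧ ∃ (b : Fin (k + 1) → ℝ) (r : ℝ), ∑ i, |b i| = 1 ∧
        ∀ j : ℕ, j < m → |∑ i, b i * g (n + j + (i : ℕ)) - r| * Real.log (g n) ≤ δ} with hEx
  have hExf : Ex.Finite := (Set.finite_Iic N').subset fun _ h => h.2.1
  have hcov : Icc n1 N' ⊆ hExf.toFinset ∪
      (range m).biUnion (fun j => hFf.toFinset.image (fun x => x - j)) := by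
    intro n hn
    rw [mem_Icc] at hn
    rw [mem_union, Set.Finite.mem_toFinset, mem_biUnion]
    by_cases h : n ∈ Ex
    · exact Or.inl h
    · right
      have h2 : ∃ j < m, δ < |∑ i, b i * g (n + j + (i : ℕ)) - r| * Real.log (g n) := by
        by_contra h3
        push Not at h3
        exact h ⟨by omega, hn.2, b, r, hb1, fun j hj => h3 j hj⟩
      obtain ⟨j, hj, h3⟩ := h2
      refine ⟨j, mem_range.2 hj, ?_⟩
      rw [mem_image]
      refine ⟨n + j, ?_, by omega⟩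
      rw [Set.Finite.mem_toFinset]
      refine ⟨by omega, by omega, ?_⟩
      have h4 : Real.log (g n) ≤ Real.log (g (n + j)) := by
        apply Real.log_le_log (by linarith [hn1' n hn.1])
        exact hg.mono _ _ (by omega) (by omega)
      have h5 := mul_le_mul_of_nonneg_left h4
        (abs_nonneg (∑ i, b i * g (n + j + (i : ℕ)) - r))
      linarith
  have hcard := card_le_card hcov
  rw [Nat.card_Icc] at hcard
  have h1 : (hExf.toFinset ∪
      (range m).biUnion (fun j => hFf.toFinset.image (fun x => x - j))).card ≤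
      hExf.toFinset.card + m * hFf.toFinset.card := by
    refine (card_union_le _ _).trans (Nat.add_le_add_left ?_ _)
    refine card_biUnion_le.trans ?_
    calc ∑ j ∈ range m, (hFf.toFinset.image (fun x => x - j)).card ≤
        ∑ j ∈ range m, hFf.toFinset.card := sum_le_sum fun j _ => card_image_le
      _ = _ := by rw [sum_const, card_range, smul_eq_mul]
  rw [Set.ncard_eq_toFinset_card _ hExf] at hex
  rw [Set.ncard_eq_toFinset_card _ hFf]
  have h2 : (N' : ℝ) + 1 - n1 ≤ hExf.toFinset.card + m * hFf.toFinset.card := by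
    have h3 := hcard.trans h1
    have h4 : N' + 1 ≤ n1 + (hExf.toFinset.card + m * hFf.toFinset.card) := by omega
    have h5 : ((N' + 1 : ℕ) : ℝ) ≤ ((n1 + (hExf.toFinset.card + m * hFf.toFinset.card) : ℕ) : ℝ) :=
      Nat.cast_le.2 h4
    push_cast at h5
    linarith
  have h3 : (N' : ℝ) = N - m := by
    rw [hN', Nat.cast_sub (by omega)]
  have h4 : (N : ℝ) / 4 ≤ m * hFf.toFinset.card := by
    have : (0 : ℝ) ≤ n1 := Nat.cast_nonneg _
    rw [h3] at h2 hex
    linarith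
  calc c * N ≤ 1 / (4 * m) * N := by gcongr
    _ = (N / 4) / m := by field_simp
    _ ≤ (m * hFf.toFinset.card) / m := by gcongr
    _ = _ := by field_simp

theorem exact {g : ℕ → ℝ} (hg : Hyp g) (k : ℕ) :
    ∃ c : ℝ, 0 < c ∧ ∀ᶠ N : ℕ in atTop, ∀ (b : Fin (k + 1) → ℝ) (r : ℝ), b ≠ 0 →
      ({n : ℕ | 1 ≤ n ∧ n ≤ N ∧ ∑ i, b i * g (n + (i : ℕ)) = r}.ncard : ℝ) ≤ (1 - c) * N := by
  classical
  obtain ⟨c, hc, h⟩ := positive hg k
  refine ⟨c, hc, ?_⟩
  filter_upwards [h] with N hN b r hb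
  set s := ∑ i, |b i| with hs
  have hs0 : 0 < s := by
    rw [hs]
    obtain ⟨i, hi⟩ := Function.ne_iff.1 hb
    exact lt_of_lt_of_le (abs_pos.2 hi)
      (single_le_sum (f := fun i => |b i|) (fun _ _ => abs_nonneg _) (mem_univ i))
  have h1 := hN (fun i => b i / s) (r / s) (by
    simp only [abs_div, abs_of_pos hs0]
    rw [← sum_div, ← hs, div_self hs0.ne'])
  set F : Set ℕ := {n : ℕ | 1 ≤ n ∧ n ≤ N ∧
        c < |∑ i, b i / s * g (n + (i : ℕ)) - r / s| * Real.log (g n)} with hF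
  set G : Set ℕ := {n : ℕ | 1 ≤ n ∧ n ≤ N ∧ ∑ i, b i * g (n + (i : ℕ)) = r} with hG
  have hFf : F.Finite := (Set.finite_Iic N).subset fun _ h => h.2.1
  have hGf : G.Finite := (Set.finite_Iic N).subset fun _ h => h.2.1
  have hdisj : Disjoint G F := by
    rw [Set.disjoint_left]
    rintro n ⟨_, _, h2⟩ ⟨_, _, h3⟩
    have h4 : ∑ i, b i / s * g (n + (i : ℕ)) = r / s := by
      rw [← h2, sum_div]
      exact sum_congr rfl fun i _ => by ring
    rw [h4, sub_self, abs_zero, zero_mul] at h3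
    linarith
  have hsub : G ∪ F ⊆ Set.Icc 1 N := by
    rintro n (h2 | h2)
    · exact ⟨h2.1, h2.2.1⟩
    · exact ⟨h2.1, h2.2.1⟩
  have h2 : G.ncard + F.ncard ≤ N := by
    rw [← Set.ncard_union_eq hdisj hGf hFf]
    refine (Set.ncard_le_ncard hsub (Set.finite_Icc 1 N)).trans ?_
    rw [← Finset.coe_Icc, Set.ncard_coe_finset, Nat.card_Icc]
    omega
  have h3 : (G.ncard : ℝ) + F.ncard ≤ N := by exact_mod_cast h2
  linarith

end Pool.Agent.H8.LC
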